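import Mathlib

/-!
# The derivative of a dihedral angle
-/

set_option autoImplicit false

namespace Pool.Agent.H30ES

theorem acos {N D1 D2 : ℝ → ℝ} {N' D1' D2' x0 z G : ℝ} (hN : HasDerivAt N N' x0)
    (h1 : HasDerivAt D1 D1' x0) (h2 : HasDerivAt D2 D2' x0) (p1 : 0 < D1 x0) (p2 : 0 < D2 x0)
    (hz : 0 < z) (hG : 0 < G) (h : D1 x0 * D2 x0 - N x0 ^ 2 = z * G) :
    HasDerivAt (fun x => Real.arccos (N x / Real.sqrt (D1 x * D2 x)))
      (-(N' - N x0 * (D1' / (2 * D1 x0) + D2' / (2 * D2 x0))) / (Real.sqrt z * Real.sqrt G)) x0 := by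
  have hD : 0 < D1 x0 * D2 x0 := mul_pos p1 p2
  have hS : 0 < Real.sqrt (D1 x0 * D2 x0) := Real.sqrt_pos.2 hD
  have hS2 : Real.sqrt (D1 x0 * D2 x0) ^ 2 = D1 x0 * D2 x0 := Real.sq_sqrt hD.le
  have dS : HasDerivAt (fun x => Real.sqrt (D1 x * D2 x))
      ((D1' * D2 x0 + D1 x0 * D2') / (2 * Real.sqrt (D1 x0 * D2 x0))) x0 :=
    (h1.mul h2).sqrt hD.ne'
  have dc := hN.div dS hS.ne'
  have hz2 : 0 < Real.sqrt z := Real.sqrt_pos.2 hz
  have hG2 : 0 < Real.sqrt G := Real.sqrt_pos.2 hG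
  have e1 : 1 - (N x0 / Real.sqrt (D1 x0 * D2 x0)) ^ 2 =
      (Real.sqrt z * Real.sqrt G / Real.sqrt (D1 x0 * D2 x0)) ^ 2 := by
    rw [div_pow, div_pow, mul_pow, Real.sq_sqrt hz.le, Real.sq_sqrt hG.le, hS2, ← h]
    field_simp
  have e2 : 0 < 1 - (N x0 / Real.sqrt (D1 x0 * D2 x0)) ^ 2 := by
    rw [e1]
    positivity
  have e3 : Real.sqrt (1 - (N x0 / Real.sqrt (D1 x0 * D2 x0)) ^ 2) =
      Real.sqrt z * Real.sqrt G / Real.sqrt (D1 x0 * D2 x0) := by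
    rw [e1]
    exact Real.sqrt_sq (by positivity)
  have hm : N x0 / Real.sqrt (D1 x0 * D2 x0) ≠ -1 := by
    intro hh
    rw [hh] at e2
    norm_num at e2
  have hp : N x0 / Real.sqrt (D1 x0 * D2 x0) ≠ 1 := by
    intro hh
    rw [hh] at e2
    norm_num at e2
  have da := (Real.hasDerivAt_arccos hm hp).comp x0 dc
  convert! da using 1
  rw [e3]
  have hne : Real.sqrt (D1 x0 * D2 x0) ≠ 0 := hS.ne'
  have p1' := p1.ne'
  have p2' := p2.ne'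
  field_simp
  rw [hS2]
  ring

end Pool.Agent.H30ES
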