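import Mathlib

/-!
# The pyramids over an equilateral triangle, and the intermediate value theorem
-/

set_option autoImplicit false

namespace Pool.Agent.H30ES

theorem dist_sq (x y : EuclideanSpace ℝ (Fin 3)) :
    dist x y ^ 2 = (x 0 - y 0) ^ 2 + (x 1 - y 1) ^ 2 + (x 2 - y 2) ^ 2 := by
  rw [EuclideanSpace.dist_eq, Real.sq_sqrt (by positivity), Fin.sum_univ_three]
  simp only [Real.dist_eq, sq_abs]

theorem pts0 {t : ℝ} (ht : 1 / 3 < t) : ∃ p : Fin 4 → EuclideanSpace ℝ (Fin 3),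
    AffineIndependent ℝ p ∧
    ∀ b c, b ≠ c → dist (p b) (p c) ^ 2 = if b = 3 ∨ c = 3 then t else 1 := by
  obtain ⟨c, hc0, hc⟩ : ∃ c : ℝ, 0 < c ∧ c ^ 2 = 1 / 2 :=
    ⟨Real.sqrt (1 / 2), by positivity, Real.sq_sqrt (by norm_num)⟩
  obtain ⟨r, hr0, hr⟩ : ∃ r : ℝ, 0 < r ∧ r ^ 2 = (t - 1 / 3) / 3 :=
    ⟨Real.sqrt ((t - 1 / 3) / 3), Real.sqrt_pos.2 (by linarith), Real.sq_sqrt (by linarith)⟩
  obtain ⟨s, hs⟩ : ∃ s : ℝ, s = c / 3 + r := ⟨_, rfl⟩
  have key : (s - c) ^ 2 + s ^ 2 + s ^ 2 = t := by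
    rw [hs]
    nlinarith
  refine ⟨![!₂[c, 0, 0], !₂[0, c, 0], !₂[0, 0, c], !₂[s, s, s]], ?_, ?_⟩
  · rw [affineIndependent_iff_of_fintype]
    intro w hw h
    rw [Finset.weightedVSub_eq_linear_combination _ hw] at h
    have h0 := congrFun (congrArg WithLp.ofLp h) 0
    have h1 := congrFun (congrArg WithLp.ofLp h) 1
    have h2 := congrFun (congrArg WithLp.ofLp h) 2
    simp [Fin.sum_univ_four] at h0 h1 h2 hw
    have h3 : w 3 * (3 * s - c) = 0 := by
      linear_combination h0 + h1 + h2 - c * hw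
    have h4 : 3 * s - c ≠ 0 := by
      rw [hs]
      intro h
      linarith
    have h5 : w 3 = 0 := (mul_eq_zero.1 h3).resolve_right h4
    rw [h5] at h0 h1 h2
    have e0 : w 0 = 0 := by
      rcases mul_eq_zero.1 (show w 0 * c = 0 by linarith) with h | h
      · exact h
      · exact absurd h hc0.ne'
    have e1 : w 1 = 0 := by
      rcases mul_eq_zero.1 (show w 1 * c = 0 by linarith) with h | h
      · exact h
      · exact absurd h hc0.ne'
    have e2 : w 2 = 0 := by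
      rcases mul_eq_zero.1 (show w 2 * c = 0 by linarith) with h | h
      · exact h
      · exact absurd h hc0.ne'
    intro i
    fin_cases i
    · exact e0
    · exact e1
    · exact e2
    · exact h5
  · intro a b hab
    rw [dist_sq]
    fin_cases a <;> fin_cases b <;> simp at hab ⊢ <;> nlinarith

theorem pts {t : ℝ} (ht : 1 / 3 < t) (a : Fin 4) : ∃ p : Fin 4 → EuclideanSpace ℝ (Fin 3),
    AffineIndependent ℝ p ∧
    ∀ b c, b ≠ c → dist (p b) (p c) ^ 2 = if b = a ∨ c = a then t else 1 := by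
  obtain ⟨p, hp1, hp2⟩ := pts0 ht
  refine ⟨p ∘ Equiv.swap a 3, hp1.comp_embedding (Equiv.swap a 3).toEmbedding, ?_⟩
  intro b c hbc
  have h := hp2 (Equiv.swap a 3 b) (Equiv.swap a 3 c) (fun h => hbc ((Equiv.swap a 3).injective h))
  have e : ∀ x : Fin 4, Equiv.swap a 3 x = 3 ↔ x = a := by
    intro x
    rw [Equiv.swap_apply_eq_iff, Equiv.swap_apply_right]
  simp only [e] at h
  exact h

theorem exists_t {d : ℕ} (hd : 2 ≤ d) : ∃ t : ℝ, 1 / 3 < t ∧ t < 1 ∧
    1 / (2 * Real.sqrt t) * (1 - 3 * Real.arccos ((2 * t - 1) / (4 * t - 1)) / (2 * Real.pi)) =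
      t * (1 / 2) * (1 - d * Real.arccos (1 / Real.sqrt (3 * (4 * t - 1))) / Real.pi) := by
  have hpi := Real.pi_pos
  let f : ℝ → ℝ := fun t =>
    1 / (2 * Real.sqrt t) * (1 - 3 * Real.arccos ((2 * t - 1) / (4 * t - 1)) / (2 * Real.pi)) -
      t * (1 / 2) * (1 - d * Real.arccos (1 / Real.sqrt (3 * (4 * t - 1))) / Real.pi)
  have hf : ContinuousOn f (Set.Icc (1 / 3) 1) := by
    have h1 : ContinuousOn (fun t : ℝ => 1 / (2 * Real.sqrt t)) (Set.Icc (1 / 3) 1) := by
      apply ContinuousOn.div continuousOn_const (by fun_prop)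
      intro t ht
      have : 0 < Real.sqrt t := Real.sqrt_pos.2 (by linarith [ht.1])
      positivity
    have h2 : ContinuousOn (fun t : ℝ => (2 * t - 1) / (4 * t - 1)) (Set.Icc (1 / 3) 1) := by
      apply ContinuousOn.div (by fun_prop) (by fun_prop)
      intro t ht h
      linarith [ht.1]
    have h3 : ContinuousOn (fun t : ℝ => 1 / Real.sqrt (3 * (4 * t - 1)))
        (Set.Icc (1 / 3) 1) := by
      apply ContinuousOn.div continuousOn_const (by fun_prop)
      intro t ht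
      have : 0 < Real.sqrt (3 * (4 * t - 1)) := Real.sqrt_pos.2 (by linarith [ht.1])
      exact this.ne'
    have h4 := Real.continuous_arccos.comp_continuousOn h2
    have h5 := Real.continuous_arccos.comp_continuousOn h3
    simp only [Function.comp_def] at h4 h5
    exact (h1.mul (continuousOn_const.sub ((continuousOn_const.mul h4).div_const _))).sub
      ((continuousOn_id.mul continuousOn_const).mul
        (continuousOn_const.sub ((continuousOn_const.mul h5).div_const _)))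
  have ha : f (1 / 3) < 0 := by
    have e1 : (2 * (1 / 3 : ℝ) - 1) / (4 * (1 / 3) - 1) = -1 := by norm_num
    have e2 : (1 : ℝ) / Real.sqrt (3 * (4 * (1 / 3) - 1)) = 1 := by
      rw [show (3 : ℝ) * (4 * (1 / 3) - 1) = 1 by norm_num]
      simp
    show 1 / (2 * Real.sqrt (1 / 3)) * (1 - 3 * Real.arccos ((2 * (1 / 3) - 1) /
      (4 * (1 / 3) - 1)) / (2 * Real.pi)) - 1 / 3 * (1 / 2) * (1 - d *
      Real.arccos (1 / Real.sqrt (3 * (4 * (1 / 3) - 1))) / Real.pi) < 0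
    rw [e1, e2, Real.arccos_neg_one, Real.arccos_one]
    have h1 : (1 : ℝ) - 3 * Real.pi / (2 * Real.pi) = -(1 / 2) := by
      field_simp
      norm_num
    rw [h1]
    have h2 : 0 < 1 / (2 * Real.sqrt (1 / 3 : ℝ)) := by positivity
    have h3 : (1 : ℝ) - d * 0 / Real.pi = 1 := by simp
    rw [h3]
    nlinarith
  have hb : 0 < f 1 := by
    have e1 : (2 * (1 : ℝ) - 1) / (4 * 1 - 1) = 1 / 3 := by norm_num
    have e2 : (1 : ℝ) / Real.sqrt (3 * (4 * 1 - 1)) = 1 / 3 := by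
      rw [show (3 : ℝ) * (4 * 1 - 1) = 3 ^ 2 by norm_num, Real.sqrt_sq (by norm_num)]
    show 0 < 1 / (2 * Real.sqrt 1) * (1 - 3 * Real.arccos ((2 * 1 - 1) / (4 * 1 - 1)) /
      (2 * Real.pi)) - 1 * (1 / 2) * (1 - d * Real.arccos (1 / Real.sqrt (3 * (4 * 1 - 1))) /
      Real.pi)
    rw [e1, e2, Real.sqrt_one]
    have h1 : 0 < Real.arccos (1 / 3) := Real.arccos_pos.2 (by norm_num)
    have h2 : (2 : ℝ) ≤ d := by exact_mod_cast hd
    have h3 : (1 : ℝ) / (2 * 1) * (1 - 3 * Real.arccos (1 / 3) / (2 * Real.pi)) -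
        1 * (1 / 2) * (1 - d * Real.arccos (1 / 3) / Real.pi) =
        (d - 3 / 2) * Real.arccos (1 / 3) / (2 * Real.pi) := by
      field_simp
      ring
    rw [h3]
    have h4 : (0 : ℝ) < d - 3 / 2 := by linarith
    positivity
  obtain ⟨t, ht, ht0⟩ := intermediate_value_Ioo (by norm_num : (1 / 3 : ℝ) ≤ 1) hf
    (show (0 : ℝ) ∈ Set.Ioo (f (1 / 3)) (f 1) from ⟨ha, hb⟩)
  exact ⟨t, ht.1, ht.2, sub_eq_zero.1 ht0⟩

end Pool.Agent.H30ES
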