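import Pool.Agent.H30ES.Schl

/-!
# The pyramids over an equilateral triangle: areas, volume and dihedral angles
-/

set_option autoImplicit false
set_option linter.unusedSimpArgs false

namespace Pool.Agent.H30ES

open Pool.Agent.H4ES

/-- `q` is the matrix of the squared edge lengths of the pyramid with apex `a` whose base edges
have length one and whose lateral edges have squared length `t`. -/
def IsPyr (q : Fin 4 → Fin 4 → ℝ) (t : ℝ) (a : Fin 4) : Prop :=
  ∀ b c, b ≠ c → q b c = if b = a ∨ c = a then t else 1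

variable {q : Fin 4 → Fin 4 → ℝ} {t : ℝ} {a : Fin 4}

theorem IsPyr.pos (h : IsPyr q t a) (ht : 1 / 3 < t) {b c : Fin 4} (hbc : b ≠ c) : 0 < q b c := by
  rw [h b c hbc]
  split_ifs
  · linarith
  · exact one_pos

theorem IsPyr.ar_eq (h : IsPyr q t a) {i j k : Fin 4} (hij : i ≠ j) (hik : i ≠ k) (hjk : j ≠ k) :
    ar q i j k = if i = a ∨ j = a ∨ k = a then 4 * t - 1 else 3 := by
  simp only [ar, h i j hij, h i k hik, h j k hjk]
  by_cases hi : i = a
  · have hj : j ≠ a := fun e => hij (hi.trans e.symm)
    have hk : k ≠ a := fun e => hik (hi.trans e.symm)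
    simp only [hi, hj, hk, or_false, or_true, true_or, false_or, if_true, if_false]
    ring
  · by_cases hj : j = a
    · have hk : k ≠ a := fun e => hjk (hj.trans e.symm)
      simp only [hi, hj, hk, or_false, or_true, true_or, false_or, if_true, if_false]
      ring
    · by_cases hk : k = a
      · simp only [hi, hj, hk, or_false, or_true, true_or, false_or, if_true, if_false]
        ring
      · simp only [hi, hj, hk, or_false, or_true, true_or, false_or, if_true, if_false]
        norm_num

theorem IsPyr.ar_pos (h : IsPyr q t a) (ht : 1 / 3 < t) {i j k : Fin 4} (hij : i ≠ j)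
    (hik : i ≠ k) (hjk : j ≠ k) : 0 < ar q i j k := by
  rw [h.ar_eq hij hik hjk]
  split_ifs
  · linarith
  · norm_num

theorem IsPyr.gram_eq (h : IsPyr q t a) : gram q = 4 * (3 * t - 1) := by
  have h01 := h 0 1 (by decide)
  have h02 := h 0 2 (by decide)
  have h03 := h 0 3 (by decide)
  have h12 := h 1 2 (by decide)
  have h13 := h 1 3 (by decide)
  have h23 := h 2 3 (by decide)
  simp only [gram, h01, h02, h03, h12, h13, h23]
  fin_cases a <;> simp <;> ring

theorem IsPyr.gram_pos (h : IsPyr q t a) (ht : 1 / 3 < t) : 0 < gram q := by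
  rw [h.gram_eq]
  linarith

theorem IsPyr.th_eq (h : IsPyr q t a) (ht : 1 / 3 < t) (m : Fin 6) :
    th q m = if ei m = a ∨ ej m = a then Real.arccos ((2 * t - 1) / (4 * t - 1))
      else Real.arccos (1 / Real.sqrt (3 * (4 * t - 1))) := by
  obtain ⟨d1, d2, d3, d4, d5, d6⟩ := distinct m
  have h1 := h _ _ d1
  have h2 := h _ _ d2
  have h3 := h _ _ d3
  have h4 := h _ _ d4
  have h5 := h _ _ d5
  have h6 := h _ _ d6
  have hcov : ∀ m : Fin 6, ∀ a : Fin 4, ¬ (ei m = a ∨ ej m = a) →
      (ek m = a ∧ el m ≠ a) ∨ (ek m ≠ a ∧ el m = a) := by decide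
  have hsq : Real.sqrt ((4 * t - 1) * (4 * t - 1)) = 4 * t - 1 :=
    Real.sqrt_mul_self (by linarith)
  by_cases hm : ei m = a ∨ ej m = a
  · rw [if_pos hm]
    have hk : ek m ≠ a := by
      rcases hm with e | e
      · exact fun e' => d2 (e.trans e'.symm)
      · exact fun e' => d4 (e.trans e'.symm)
    have hl : el m ≠ a := by
      rcases hm with e | e
      · exact fun e' => d3 (e.trans e'.symm)
      · exact fun e' => d5 (e.trans e'.symm)
    have hA1 : ar q (ei m) (ej m) (ek m) = 4 * t - 1 := by
      rw [h.ar_eq d1 d2 d4, if_pos (hm.elim Or.inl fun e => Or.inr (Or.inl e))]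
    have hA2 : ar q (ei m) (ej m) (el m) = 4 * t - 1 := by
      rw [h.ar_eq d1 d3 d5, if_pos (hm.elim Or.inl fun e => Or.inr (Or.inl e))]
    have hN : nu q (ei m) (ej m) (ek m) (el m) = 2 * t - 1 := by
      simp only [nu, h1, h2, h3, h4, h5, h6]
      rcases hm with e | e
      · have hj : ej m ≠ a := fun e' => d1 (e.trans e'.symm)
        simp only [e, hj, hk, hl, or_false, or_true, true_or, false_or, if_true, if_false]
        ring
      · have hi : ei m ≠ a := fun e' => d1 (e'.trans e.symm)
        simp only [e, hi, hk, hl, or_false, or_true, true_or, false_or, if_true, if_false]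
        ring
    rw [th, hA1, hA2, hN, hsq]
  · rw [if_neg hm]
    push Not at hm
    obtain ⟨hi, hj⟩ := hm
    rcases hcov m a (by push Not; exact ⟨hi, hj⟩) with ⟨hk, hl⟩ | ⟨hk, hl⟩
    · have hA1 : ar q (ei m) (ej m) (ek m) = 4 * t - 1 := by
        rw [h.ar_eq d1 d2 d4, if_pos (Or.inr (Or.inr hk))]
      have hA2 : ar q (ei m) (ej m) (el m) = 3 := by
        rw [h.ar_eq d1 d3 d5, if_neg (by push Not; exact ⟨hi, hj, hl⟩)]
      have hN : nu q (ei m) (ej m) (ek m) (el m) = 1 := by
        simp only [nu, h1, h2, h3, h4, h5, h6]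
        simp only [hi, hj, hk, hl, or_false, or_true, true_or, false_or, if_true, if_false]
        ring
      rw [th, hA1, hA2, hN, mul_comm (4 * t - 1) 3]
    · have hA1 : ar q (ei m) (ej m) (ek m) = 3 := by
        rw [h.ar_eq d1 d2 d4, if_neg (by push Not; exact ⟨hi, hj, hk⟩)]
      have hA2 : ar q (ei m) (ej m) (el m) = 4 * t - 1 := by
        rw [h.ar_eq d1 d3 d5, if_pos (Or.inr (Or.inr hl))]
      have hN : nu q (ei m) (ej m) (ek m) (el m) = 1 := by
        simp only [nu, h1, h2, h3, h4, h5, h6]
        simp only [hi, hj, hk, hl, or_false, or_true, true_or, false_or, if_true, if_false]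
        ring
      rw [th, hA1, hA2, hN]

end Pool.Agent.H30ES
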