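import Pool.Agent.H30ES.Regge
import Pool.Agent.H30ES.Pyr
import Pool.Agent.H30ES.Pts

/-!
# The Einstein metric on the cone subdivision
-/

set_option autoImplicit false
set_option linter.unusedSectionVars false

namespace Pool.Agent.H30ES

open Pool.Agent.H4ES

variable {V ι : Type} [DecidableEq V] [Fintype ι] [DecidableEq ι]

open Classical in
/-- The metric: old edges have length one, new edges squared length `t`. -/
noncomputable def zt (t : ℝ) : Sym2 (V ⊕ ι) → ℝ := fun e => if ∃ T, Sum.inr T ∈ e then t else 1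

theorem zt_inl (t : ℝ) (x y : V) : zt (ι := ι) t s(Sum.inl x, Sum.inl y) = 1 := by
  rw [zt, if_neg]
  rintro ⟨T, h⟩
  simp at h

theorem zt_inr (t : ℝ) (x : V) (T : ι) : zt t s(Sum.inl x, Sum.inr T) = t := by
  rw [zt, if_pos]
  exact ⟨T, by simp⟩

theorem zt_rin (t : ℝ) (x : V) (T : ι) : zt t s(Sum.inr T, Sum.inl x) = t := by
  rw [zt, if_pos]
  exact ⟨T, by simp⟩

theorem cone_v_self (K : Cplx V ι) (T : ι) (a : Fin 4) : K.cone.v (T, a) a = Sum.inr T :=
  if_pos rfl

theorem cone_v_ne (K : Cplx V ι) (T : ι) {a b : Fin 4} (h : b ≠ a) :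
    K.cone.v (T, a) b = Sum.inl (K.v T b) :=
  if_neg h

theorem isPyr (K : Cplx V ι) (t : ℝ) (T : ι) (a : Fin 4) :
    IsPyr (K.cone.sq (zt t) (T, a)) t a := by
  intro b c hbc
  show zt t s(K.cone.v (T, a) b, K.cone.v (T, a) c) = _
  by_cases hb : b = a
  · subst hb
    rw [cone_v_self, cone_v_ne K T (Ne.symm hbc), zt_rin, if_pos (Or.inl rfl)]
  · by_cases hc : c = a
    · subst hc
      rw [cone_v_self, cone_v_ne K T hbc, zt_inr, if_pos (Or.inr rfl)]
    · rw [cone_v_ne K T hb, cone_v_ne K T hc, zt_inl, if_neg (by push Not; exact ⟨hb, hc⟩)]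

theorem ei_ej_inj : ∀ m m' : Fin 6, ((ei m = ei m' ∧ ej m = ej m') ∨
    (ei m = ej m' ∧ ej m = ei m')) → m = m' := by decide

theorem ed_inj (K : Cplx V ι) (T : ι) {m m' : Fin 6} (h : K.ed T m = K.ed T m') : m = m' := by
  apply ei_ej_inj
  rcases Sym2.eq_iff.1 (show s(K.v T (ei m), K.v T (ej m)) = s(K.v T (ei m'), K.v T (ej m'))
    from h) with ⟨h1, h2⟩ | ⟨h1, h2⟩
  · exact Or.inl ⟨K.inj T h1, K.inj T h2⟩
  · exact Or.inr ⟨K.inj T h1, K.inj T h2⟩

theorem degsum (K : Cplx V ι) (e : Sym2 V) (c : ℝ) :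
    ∑ T, ∑ m, (if K.ed T m = e then c else 0) = K.deg e * c := by
  have h1 : ∀ T, ∑ m, (if K.ed T m = e then c else 0) =
      if ∃ m, K.ed T m = e then c else 0 := by
    intro T
    by_cases h : ∃ m, K.ed T m = e
    · rw [if_pos h]
      obtain ⟨m, hm⟩ := h
      rw [Finset.sum_eq_single m]
      · rw [if_pos hm]
      · intro m' _ hne
        rw [if_neg]
        intro h'
        exact hne (ed_inj K T (h'.trans hm.symm))
      · intro h'
        exact absurd (Finset.mem_univ m) h'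
    · rw [if_neg h]
      refine Finset.sum_eq_zero fun m _ => if_neg fun hm => h ⟨m, hm⟩
  simp only [h1]
  rw [← Finset.sum_filter, Finset.sum_const, nsmul_eq_mul]
  rfl

theorem count_old (m : Fin 6) (c : ℝ) :
    ∑ a : Fin 4, (if ei m ≠ a ∧ ej m ≠ a then c else 0) = 2 * c := by
  rw [← Finset.sum_filter, Finset.sum_const, nsmul_eq_mul]
  congr 1
  have : ∀ m : Fin 6, (Finset.univ.filter fun a : Fin 4 => ei m ≠ a ∧ ej m ≠ a).card = 2 := by
    decide
  rw [this m]
  norm_num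

theorem count_new (b : Fin 4) (c : ℝ) :
    ∑ a : Fin 4, ∑ m : Fin 6, (if (ei m = a ∧ ej m = b) ∨ (ej m = a ∧ ei m = b) then c else 0) =
      3 * c := by
  rw [← Finset.sum_product', ← Finset.sum_filter, Finset.sum_const, nsmul_eq_mul]
  congr 1
  have : ∀ b : Fin 4, ((Finset.univ ×ˢ Finset.univ).filter fun x : Fin 4 × Fin 6 =>
      (ei x.2 = x.1 ∧ ej x.2 = b) ∨ (ej x.2 = x.1 ∧ ei x.2 = b)).card = 3 := by
    decide
  rw [this b]
  norm_num

/-- The curvature at an old edge. -/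
theorem curv_old (K : Cplx V ι) {t : ℝ} (ht : 1 / 3 < t) (T0 : ι) (m0 : Fin 6) :
    K.cone.curv (zt t) s(Sum.inl (K.v T0 (ei m0)), Sum.inl (K.v T0 (ej m0))) =
      1 - K.deg (K.ed T0 m0) * Real.arccos (1 / Real.sqrt (3 * (4 * t - 1))) / Real.pi := by
  have hpi := Real.pi_pos
  have key : ∀ T a m, (K.cone.ed (T, a) m =
      s(Sum.inl (K.v T0 (ei m0)), Sum.inl (K.v T0 (ej m0)))) ↔
      (ei m ≠ a ∧ ej m ≠ a) ∧ K.ed T m = K.ed T0 m0 := by
    intro T a m
    show s(K.cone.v (T, a) (ei m), K.cone.v (T, a) (ej m)) = _ ↔ _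
    by_cases h1 : ei m = a
    · rw [h1, cone_v_self]
      simp
    · by_cases h2 : ej m = a
      · rw [h2, cone_v_self]
        simp
      · rw [cone_v_ne K T h1, cone_v_ne K T h2]
        constructor
        · intro h
          refine ⟨⟨h1, h2⟩, ?_⟩
          show s(K.v T (ei m), K.v T (ej m)) = s(K.v T0 (ei m0), K.v T0 (ej m0))
          rcases Sym2.eq_iff.1 h with ⟨h3, h4⟩ | ⟨h3, h4⟩
          · rw [Sum.inl_injective h3, Sum.inl_injective h4]
          · rw [Sum.inl_injective h3, Sum.inl_injective h4, Sym2.eq_swap]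
        · rintro ⟨-, h⟩
          rcases Sym2.eq_iff.1 (show s(K.v T (ei m), K.v T (ej m)) =
            s(K.v T0 (ei m0), K.v T0 (ej m0)) from h) with ⟨h3, h4⟩ | ⟨h3, h4⟩
          · rw [h3, h4]
          · rw [h3, h4, Sym2.eq_swap]
  rw [Cplx.curv, Fintype.sum_prod_type]
  congr 1
  have h1 : ∀ T : ι, ∑ a : Fin 4, ∑ m, (if K.cone.ed (T, a) m =
      s(Sum.inl (K.v T0 (ei m0)), Sum.inl (K.v T0 (ej m0))) then
      th (K.cone.sq (zt t) (T, a)) m / (2 * Real.pi) else 0) =
      ∑ m, (if K.ed T m = K.ed T0 m0 then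
        Real.arccos (1 / Real.sqrt (3 * (4 * t - 1))) / Real.pi else 0) := by
    intro T
    rw [Finset.sum_comm]
    refine Finset.sum_congr rfl fun m _ => ?_
    have h2 : ∀ a : Fin 4, (if K.cone.ed (T, a) m =
      s(Sum.inl (K.v T0 (ei m0)), Sum.inl (K.v T0 (ej m0))) then
      th (K.cone.sq (zt t) (T, a)) m / (2 * Real.pi) else 0) =
      if K.ed T m = K.ed T0 m0 then (if ei m ≠ a ∧ ej m ≠ a then
        Real.arccos (1 / Real.sqrt (3 * (4 * t - 1))) / (2 * Real.pi) else 0) else 0 := by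
      intro a
      by_cases h3 : K.ed T m = K.ed T0 m0
      · by_cases h4 : ei m ≠ a ∧ ej m ≠ a
        · rw [if_pos ((key T a m).2 ⟨h4, h3⟩), if_pos h3, if_pos h4, (isPyr K t T a).th_eq ht m,
            if_neg (by push Not; exact h4)]
        · rw [if_neg (fun h => h4 ((key T a m).1 h).1), if_pos h3, if_neg h4]
      · rw [if_neg (fun h => h3 ((key T a m).1 h).2), if_neg h3]
    simp only [h2]
    by_cases h3 : K.ed T m = K.ed T0 m0
    · simp only [if_pos h3]
      rw [count_old]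
      field_simp
    · simp only [if_neg h3]
      simp
  simp only [h1]
  rw [degsum]
  ring

/-- The curvature at a new edge. -/
theorem curv_new (K : Cplx V ι) {t : ℝ} (ht : 1 / 3 < t) (T0 : ι) (b0 : Fin 4) :
    K.cone.curv (zt t) s(Sum.inl (K.v T0 b0), Sum.inr T0) =
      1 - 3 * Real.arccos ((2 * t - 1) / (4 * t - 1)) / (2 * Real.pi) := by
  have key : ∀ T a m, (K.cone.ed (T, a) m = s(Sum.inl (K.v T0 b0), Sum.inr T0)) ↔
      T = T0 ∧ ((ei m = a ∧ ej m = b0) ∨ (ej m = a ∧ ei m = b0)) := by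
    intro T a m
    obtain ⟨d1, -⟩ := distinct m
    show s(K.cone.v (T, a) (ei m), K.cone.v (T, a) (ej m)) = _ ↔ _
    by_cases h1 : ei m = a
    · have h2 : ej m ≠ a := fun h => d1 (h1.trans h.symm)
      rw [h1, cone_v_self, cone_v_ne K T h2]
      constructor
      · intro h
        rcases Sym2.eq_iff.1 h with ⟨h3, h4⟩ | ⟨h3, h4⟩
        · exact absurd h3 (by simp)
        · have e1 : T = T0 := Sum.inr_injective h3
          subst e1
          exact ⟨rfl, Or.inl ⟨rfl, K.inj T (Sum.inl_injective h4)⟩⟩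
      · rintro ⟨rfl, ⟨-, h4⟩ | ⟨h3, -⟩⟩
        · rw [h4, Sym2.eq_swap]
        · exact absurd h3 h2
    · by_cases h2 : ej m = a
      · rw [h2, cone_v_self, cone_v_ne K T h1]
        constructor
        · intro h
          rcases Sym2.eq_iff.1 h with ⟨h3, h4⟩ | ⟨h3, h4⟩
          · have e1 : T = T0 := Sum.inr_injective h4
            subst e1
            exact ⟨rfl, Or.inr ⟨rfl, K.inj T (Sum.inl_injective h3)⟩⟩
          · exact absurd h3 (by simp)
        · rintro ⟨rfl, ⟨h3, -⟩ | ⟨-, h4⟩⟩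
          · exact absurd h3 h1
          · rw [h4]
      · rw [cone_v_ne K T h1, cone_v_ne K T h2]
        constructor
        · intro h
          rcases Sym2.eq_iff.1 h with ⟨h3, h4⟩ | ⟨h3, h4⟩
          · exact absurd h4 (by simp)
          · exact absurd h3 (by simp)
        · rintro ⟨-, ⟨h3, -⟩ | ⟨h3, -⟩⟩
          · exact absurd h3 h1
          · exact absurd h3 h2
  rw [Cplx.curv, Fintype.sum_prod_type]
  congr 1
  have h1 : ∀ T : ι, ∑ a : Fin 4, ∑ m, (if K.cone.ed (T, a) m =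
      s(Sum.inl (K.v T0 b0), Sum.inr T0) then
      th (K.cone.sq (zt t) (T, a)) m / (2 * Real.pi) else 0) =
      if T = T0 then 3 * (Real.arccos ((2 * t - 1) / (4 * t - 1)) / (2 * Real.pi)) else 0 := by
    intro T
    have h2 : ∀ a : Fin 4, ∀ m : Fin 6, (if K.cone.ed (T, a) m =
      s(Sum.inl (K.v T0 b0), Sum.inr T0) then
      th (K.cone.sq (zt t) (T, a)) m / (2 * Real.pi) else 0) =
      if T = T0 then (if (ei m = a ∧ ej m = b0) ∨ (ej m = a ∧ ei m = b0) then
        Real.arccos ((2 * t - 1) / (4 * t - 1)) / (2 * Real.pi) else 0) else 0 := by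
      intro a m
      by_cases h3 : T = T0
      · by_cases h4 : (ei m = a ∧ ej m = b0) ∨ (ej m = a ∧ ei m = b0)
        · rw [if_pos ((key T a m).2 ⟨h3, h4⟩), if_pos h3, if_pos h4, (isPyr K t T a).th_eq ht m,
            if_pos (h4.imp And.left And.left)]
        · rw [if_neg (fun h => h4 ((key T a m).1 h).2), if_pos h3, if_neg h4]
      · rw [if_neg (fun h => h3 ((key T a m).1 h).1), if_neg h3]
    simp only [h2]
    by_cases h3 : T = T0
    · simp only [if_pos h3]
      exact count_new b0 _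
    · simp only [if_neg h3]
      simp
  simp only [h1]
  rw [Finset.sum_ite_eq' Finset.univ T0, if_pos (Finset.mem_univ _)]
  ring

/-- If every edge of `K` is in exactly `d ≥ 2` tetrahedra then the subdivision of `K` in which every
tetrahedron is coned from an interior point has an Einstein metric. -/
theorem cone_einstein (K : Cplx V ι) {d : ℕ} (hd : 2 ≤ d) (hdeg : ∀ e ∈ K.edges, K.deg e = d) :
    ∃ z, K.cone.IsEinstein z := by
  obtain ⟨t, ht, ht1, heq⟩ := exists_t hd
  refine ⟨zt t, ?_, 1 / 2 * (1 - d * Real.arccos (1 / Real.sqrt (3 * (4 * t - 1))) / Real.pi), ?_⟩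
  · rintro ⟨T, a⟩
    obtain ⟨p, hp1, hp2⟩ := pts ht a
    refine ⟨p, hp1, fun b c hbc => ?_⟩
    rw [hp2 b c hbc, isPyr K t T a b c hbc]
  · intro e he
    have hR := regge K.cone (zt t) (fun T a b hab => (isPyr K t T.1 T.2).pos ht hab)
      (fun T i j k hij hik hjk => (isPyr K t T.1 T.2).ar_pos ht hij hik hjk)
      (fun T => (isPyr K t T.1 T.2).gram_pos ht) he
    convert! hR using 1
    obtain ⟨⟨⟨T, a⟩, m⟩, -, h⟩ := Finset.mem_image.1 he
    obtain ⟨d1, -⟩ := distinct m
    have h' : s(K.cone.v (T, a) (ei m), K.cone.v (T, a) (ej m)) = e := h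
    have hne : Real.sqrt t ≠ 0 := (Real.sqrt_pos.2 (by linarith)).ne'
    by_cases h1 : ei m = a
    · have h2 : ej m ≠ a := fun h => d1 (h1.trans h.symm)
      rw [h1, cone_v_self, cone_v_ne K T h2, Sym2.eq_swap] at h'
      rw [← h', zt_inr, curv_new K ht]
      rw [show (1 - 3 * Real.arccos ((2 * t - 1) / (4 * t - 1)) / (2 * Real.pi)) /
        (2 * Real.sqrt t) = 1 / (2 * Real.sqrt t) *
        (1 - 3 * Real.arccos ((2 * t - 1) / (4 * t - 1)) / (2 * Real.pi)) by ring, heq]
      ring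
    · by_cases h2 : ej m = a
      · rw [h2, cone_v_self, cone_v_ne K T h1] at h'
        rw [← h', zt_inr, curv_new K ht]
        rw [show (1 - 3 * Real.arccos ((2 * t - 1) / (4 * t - 1)) / (2 * Real.pi)) /
          (2 * Real.sqrt t) = 1 / (2 * Real.sqrt t) *
          (1 - 3 * Real.arccos ((2 * t - 1) / (4 * t - 1)) / (2 * Real.pi)) by ring, heq]
        ring
      · rw [cone_v_ne K T h1, cone_v_ne K T h2] at h'
        rw [← h', zt_inl, curv_old K ht, hdeg _ (ed_mem K T m), Real.sqrt_one]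
        ring

end Pool.Agent.H30ES
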