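import Pool.Agent.DW.Chord

/-!
# Joins of two cycles: the two equations have a common zero (Poincaré–Miranda)
-/

set_option autoImplicit false

namespace Pool.Agent.H30ES

open Real Set

/-- The dihedral angle at the edge of squared length `s`, as a function of the parameter. -/
noncomputable def jA (p : ℝ) : ℝ := arccos ((1 - p ^ 2) / (1 + p ^ 2))

/-- The dihedral angle at the mixed edges. -/
noncomputable def jB (p q : ℝ) : ℝ := arccos (p * q / √((1 + p ^ 2) * (1 + q ^ 2)))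

theorem continuous_jA : Continuous jA := by
  unfold jA
  refine Real.continuous_arccos.comp (Continuous.div (by fun_prop) (by fun_prop) ?_)
  intro x
  positivity

theorem continuous_jB : Continuous fun z : ℝ × ℝ => jB z.1 z.2 := by
  unfold jB
  refine Real.continuous_arccos.comp (Continuous.div (by fun_prop) (by fun_prop) ?_)
  intro x
  positivity

theorem jA_zero : jA 0 = 0 := by simp [jA]

theorem jB_zero_left (q : ℝ) : jB 0 q = π / 2 := by simp [jB]

theorem jB_zero_right (p : ℝ) : jB p 0 = π / 2 := by simp [jB]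

theorem jB_le {p q : ℝ} (hp : 0 ≤ p) (hq : 0 ≤ q) : jB p q ≤ π / 2 := by
  unfold jB
  rw [Real.arccos_le_pi_div_two]
  positivity

theorem jA_two : 2 * π / 3 < jA 2 := by
  have h : (1 - (2 : ℝ) ^ 2) / (1 + 2 ^ 2) = -3 / 5 := by norm_num
  unfold jA
  rw [h]
  have hc : cos (2 * π / 3) = -1 / 2 := by
    have : 2 * π / 3 = π - π / 3 := by ring
    rw [this, Real.cos_pi_sub, Real.cos_pi_div_three]
    norm_num
  have h0 : 0 ≤ 2 * π / 3 := by positivity
  have h1 : 2 * π / 3 ≤ π := by linarith [Real.pi_pos]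
  rw [← Real.arccos_cos h0 h1, hc]
  exact Real.arccos_lt_arccos (by norm_num) (by norm_num) (by norm_num)

/-- The main equation, in the parameters `p`, `q`. -/
noncomputable def jF (m : ℕ) (p q : ℝ) : ℝ :=
  (1 - m * jA p / (2 * π)) -
    (4 * q ^ 2 / (1 + p ^ 2 + q ^ 2)) * √(4 * q ^ 2 / (1 + p ^ 2 + q ^ 2)) *
      (1 - 4 * jB p q / (2 * π))

theorem continuous_jF (m : ℕ) : Continuous fun z : ℝ × ℝ => jF m z.1 z.2 := by
  have hs : Continuous fun z : ℝ × ℝ => 4 * z.2 ^ 2 / (1 + z.1 ^ 2 + z.2 ^ 2) := by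
    refine Continuous.div (by fun_prop) (by fun_prop) ?_
    intro x
    positivity
  have hA : Continuous fun z : ℝ × ℝ => jA z.1 := continuous_jA.comp continuous_fst
  have hB := continuous_jB
  unfold jF
  refine Continuous.sub ?_ ?_
  · exact continuous_const.sub ((continuous_const.mul hA).div_const _)
  · exact (hs.mul hs.sqrt).mul (continuous_const.sub ((continuous_const.mul hB).div_const _))

theorem jF_zero (m : ℕ) (q : ℝ) : jF m 0 q = 1 := by
  unfold jF
  rw [jA_zero, jB_zero_left]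
  have : (4 : ℝ) * (π / 2) / (2 * π) = 1 := by
    field_simp
    norm_num
  rw [this]
  simp

theorem jF_two {m : ℕ} (hm : 3 ≤ m) {q : ℝ} (hq : 0 ≤ q) : jF m 2 q < 0 := by
  have hp := Real.pi_pos
  have h1 : (1 : ℝ) < m * jA 2 / (2 * π) := by
    rw [lt_div_iff₀ (by positivity)]
    have hm' : (3 : ℝ) ≤ m := by exact_mod_cast hm
    have := jA_two
    nlinarith
  have h2 : 0 ≤ (4 * q ^ 2 / (1 + 2 ^ 2 + q ^ 2)) * √(4 * q ^ 2 / (1 + 2 ^ 2 + q ^ 2)) *
      (1 - 4 * jB 2 q / (2 * π)) := by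
    refine mul_nonneg (by positivity) ?_
    have h3 : 4 * jB 2 q / (2 * π) ≤ 1 := by
      rw [div_le_one (by positivity)]
      have := jB_le (p := 2) (by norm_num) hq
      linarith
    linarith
  unfold jF
  linarith

theorem jB_comm (p q : ℝ) : jB p q = jB q p := by
  unfold jB
  rw [mul_comm p q, mul_comm (1 + p ^ 2)]

theorem exists_pq (l m : ℕ) (hl : 3 ≤ l) (hm : 3 ≤ m) :
    ∃ p q : ℝ, 0 < p ∧ 0 < q ∧ jF m p q = 0 ∧ jF l q p = 0 := by
  obtain ⟨z, hz, hf, hg⟩ := Pool.Agent.DW.pm2_strict (f := fun z : ℝ × ℝ => - jF m z.1 z.2)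
    (g := fun z : ℝ × ℝ => - jF l z.2 z.1) (a := 0) (b := 2) (c := 0) (d := 2)
    (by norm_num) (by norm_num) (continuous_jF m).neg.continuousOn
    ((continuous_jF l).comp continuous_swap).neg.continuousOn
    (fun y _ => by simp [jF_zero]) (fun y hy => by
      have := jF_two hm hy.1
      simpa using this)
    (fun x _ => by simp [jF_zero]) (fun x hx => by
      have := jF_two hl hx.1
      simpa using this)
  obtain ⟨⟨h1, h2⟩, ⟨h3, h4⟩⟩ := hz
  simp only [neg_eq_zero] at hf hg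
  refine ⟨z.1, z.2, lt_of_le_of_ne h1 ?_, lt_of_le_of_ne h3 ?_, hf, hg⟩
  · intro h
    rw [← h, jF_zero] at hf
    exact one_ne_zero hf
  · intro h
    rw [← h, jF_zero] at hg
    exact one_ne_zero hg

/-- **E2.** The two equations of the join of an `l`-cycle and an `m`-cycle. -/
theorem join_exists (l m : ℕ) (hl : 3 ≤ l) (hm : 3 ≤ m) :
    ∃ s u : ℝ, 0 < s ∧ 0 < u ∧ s + u < 4 ∧
      1 - m * arccos ((4 - s - 2 * u) / (4 - s)) / (2 * π) =
        s * √s * (1 - 4 * arccos (√(s * u) / √((4 - s) * (4 - u))) / (2 * π)) ∧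
      1 - l * arccos ((4 - u - 2 * s) / (4 - u)) / (2 * π) =
        u * √u * (1 - 4 * arccos (√(s * u) / √((4 - s) * (4 - u))) / (2 * π)) := by
  obtain ⟨p, q, hp, hq, h1, h2⟩ := exists_pq l m hl hm
  set D : ℝ := 1 + p ^ 2 + q ^ 2 with hD
  have hD0 : 0 < D := by positivity
  have e1 : (4 : ℝ) - 4 * q ^ 2 / D = 4 * (1 + p ^ 2) / D := by
    field_simp
    rw [hD]; ring
  have e2 : (4 : ℝ) - 4 * p ^ 2 / D = 4 * (1 + q ^ 2) / D := by
    field_simp
    rw [hD]; ring
  have a1 : (4 - 4 * q ^ 2 / D - 2 * (4 * p ^ 2 / D)) / (4 - 4 * q ^ 2 / D) =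
      (1 - p ^ 2) / (1 + p ^ 2) := by
    rw [e1]
    field_simp
    ring
  have a2 : (4 - 4 * p ^ 2 / D - 2 * (4 * q ^ 2 / D)) / (4 - 4 * p ^ 2 / D) =
      (1 - q ^ 2) / (1 + q ^ 2) := by
    rw [e2]
    field_simp
    ring
  have b1 : √(4 * q ^ 2 / D * (4 * p ^ 2 / D)) = 4 * (p * q) / D := by
    rw [show 4 * q ^ 2 / D * (4 * p ^ 2 / D) = (4 * (p * q) / D) ^ 2 by ring]
    exact Real.sqrt_sq (by positivity)
  have b2 : √(4 * (1 + p ^ 2) / D * (4 * (1 + q ^ 2) / D)) =
      4 * √((1 + p ^ 2) * (1 + q ^ 2)) / D := by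
    rw [show 4 * (1 + p ^ 2) / D * (4 * (1 + q ^ 2) / D) =
      (4 / D) ^ 2 * ((1 + p ^ 2) * (1 + q ^ 2)) by ring, Real.sqrt_mul (by positivity),
      Real.sqrt_sq (by positivity)]
    ring
  have b : √(4 * q ^ 2 / D * (4 * p ^ 2 / D)) /
      √((4 - 4 * q ^ 2 / D) * (4 - 4 * p ^ 2 / D)) =
      p * q / √((1 + p ^ 2) * (1 + q ^ 2)) := by
    rw [e1, e2, b1, b2]
    have : 0 < √((1 + p ^ 2) * (1 + q ^ 2)) := by positivity
    field_simp
  refine ⟨4 * q ^ 2 / D, 4 * p ^ 2 / D, by positivity, by positivity, ?_, ?_, ?_⟩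
  · have : 4 * q ^ 2 / D + 4 * p ^ 2 / D = 4 - 4 / D := by
      field_simp
      rw [hD]; ring
    have h4 : 0 < 4 / D := by positivity
    linarith
  · rw [a1, b]
    have := h1
    unfold jF jA jB at this
    rw [← hD] at this
    linarith
  · rw [a2, b]
    have := h2
    rw [jF, jB_comm] at this
    unfold jA jB at this
    rw [show 1 + q ^ 2 + p ^ 2 = D by rw [hD]; ring] at this
    linarith

end Pool.Agent.H30ES
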