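import Pool.Agent.H50En.Defs

/-!
# The inverse of the Cayley–Menger matrix: symmetry, row sums, Jacobi's identity
-/

set_option autoImplicit false

namespace Pool.Agent.H30ES

open Real Finset Pool.Agent.H50En

variable {V : Type} [DecidableEq V]

theorem CM_symm (z : Sym2 V → ℝ) (s : Finset V) : (CM z s).transpose = CM z s := by
  ext a b
  rcases a with _ | i <;> rcases b with _ | j
  · rfl
  · rfl
  · rfl
  · simp only [CM, Matrix.transpose_apply, Matrix.of_apply]
    rw [Sym2.eq_swap]
    by_cases h : i = j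
    · simp [h]
    · rw [if_neg h, if_neg (Ne.symm h)]

/-- B1 -/
theorem Q_symm (z : Sym2 V → ℝ) (s : Finset V) (k l : V) : Q z s k l = Q z s l k := by
  unfold Q
  by_cases h : k ∈ s ∧ l ∈ s
  · rw [dif_pos h, dif_pos h.symm]
    conv_lhs => rw [← CM_symm z s, ← Matrix.transpose_nonsing_inv, Matrix.transpose_apply]
  · rw [dif_neg h, dif_neg fun hh => h hh.symm]

theorem Q_of_mem (z : Sym2 V → ℝ) {s : Finset V} {k l : V} (hk : k ∈ s) (hl : l ∈ s) :
    Q z s k l = (CM z s)⁻¹ (some ⟨k, hk⟩) (some ⟨l, hl⟩) := by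
  unfold Q
  rw [dif_pos ⟨hk, hl⟩]

/-- B1 -/
theorem Q_sum {z : Sym2 V → ℝ} {s : Finset V} (hD : (CM z s).det ≠ 0) {k : V} (hk : k ∈ s) :
    ∑ l ∈ s, Q z s k l = 0 := by
  have h := Matrix.nonsing_inv_mul (CM z s) (isUnit_iff_ne_zero.2 hD)
  have h1 := congrFun (congrFun h (some ⟨k, hk⟩)) none
  rw [Matrix.mul_apply, Fintype.sum_option] at h1
  simp only [CM, Matrix.of_apply, mul_zero, mul_one, zero_add] at h1
  rw [Matrix.one_apply_ne (by simp)] at h1
  rw [← Finset.sum_coe_sort, ← h1]
  exact Finset.sum_congr rfl fun l _ => Q_of_mem z hk l.2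

/-- B2: Jacobi's identity, with sign. -/
theorem jacobi' {z : Sym2 V → ℝ} {T : Finset V} (hD : (CM z T).det ≠ 0) {k l : V} (hk : k ∈ T)
    (hl : l ∈ T) (hkl : k ≠ l) :
    (CM z ((T.erase k).erase l)).det = (CM z T).det * (Q z T k k * Q z T l l - Q z T k l ^ 2) := by
  classical
  set A := CM z T with hA
  set p : Option T → Prop := fun i => i = some ⟨k, hk⟩ ∨ i = some ⟨l, hl⟩ with hp
  set M : Matrix (Option T) (Option T) ℝ := Matrix.of fun a b =>
    if p b then A⁻¹ a b else (1 : Matrix (Option T) (Option T) ℝ) a b with hM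
  have hAi := Matrix.mul_nonsing_inv A (isUnit_iff_ne_zero.2 hD)
  have hN : ∀ a b, (A * M) a b = if p b then (1 : Matrix (Option T) (Option T) ℝ) a b else A a b := by
    intro a b
    rw [Matrix.mul_apply]
    by_cases hb : p b
    · simp only [hM, Matrix.of_apply, if_pos hb]
      rw [← Matrix.mul_apply, hAi]
    · simp only [hM, Matrix.of_apply, if_neg hb]
      rw [← Matrix.mul_apply, Matrix.mul_one]
  have d1 : (A * M).det = A.det * M.det := Matrix.det_mul _ _
  have d2 : M.det = (Matrix.toSquareBlockProp M p).det * (Matrix.toSquareBlockProp M fun i => ¬ p i).det := by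
    refine Matrix.twoBlockTriangular_det' M p ?_
    intro i hi j hj
    simp only [hM, Matrix.of_apply, if_neg hj]
    refine Matrix.one_apply_ne ?_
    rintro rfl
    exact hj hi
  have d3 : (A * M).det = (Matrix.toSquareBlockProp (A * M) p).det *
      (Matrix.toSquareBlockProp (A * M) fun i => ¬ p i).det := by
    refine Matrix.twoBlockTriangular_det (A * M) p ?_
    intro i hi j hj
    rw [hN, if_pos hj]
    refine Matrix.one_apply_ne ?_
    rintro rfl
    exact hi hj
  have d4 : (Matrix.toSquareBlockProp M fun i => ¬ p i) = 1 := by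
    ext ⟨a, ha⟩ ⟨b, hb⟩
    simp only [Matrix.toSquareBlockProp_def, Matrix.of_apply, hM, if_neg hb, Matrix.one_apply,
      Subtype.mk.injEq]
  have d5 : (Matrix.toSquareBlockProp (A * M) p) = 1 := by
    ext ⟨a, ha⟩ ⟨b, hb⟩
    simp only [Matrix.toSquareBlockProp_def, Matrix.of_apply, hN, if_pos hb, Matrix.one_apply,
      Subtype.mk.injEq]
  -- the block of size two
  let e2 : Fin 2 ≃ {i // p i} := Equiv.ofBijective
    ![⟨some ⟨k, hk⟩, Or.inl rfl⟩, ⟨some ⟨l, hl⟩, Or.inr rfl⟩] (by
      constructor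
      · intro a b hab
        fin_cases a <;> fin_cases b <;> simp_all
      · rintro ⟨i, hi | hi⟩
        · exact ⟨0, by simp [hi]⟩
        · exact ⟨1, by simp [hi]⟩)
  have d6 : (Matrix.toSquareBlockProp M p).det = Q z T k k * Q z T l l - Q z T k l ^ 2 := by
    rw [← Matrix.det_submatrix_equiv_self e2, Matrix.det_fin_two]
    have e20 : (e2 0).1 = some ⟨k, hk⟩ := rfl
    have e21 : (e2 1).1 = some ⟨l, hl⟩ := rfl
    have pk : p (some ⟨k, hk⟩) := Or.inl rfl
    have pl : p (some ⟨l, hl⟩) := Or.inr rfl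
    have hMe : ∀ i j : Fin 2, (Matrix.toSquareBlockProp M p).submatrix e2 e2 i j =
        A⁻¹ (e2 i).1 (e2 j).1 := by
      intro i j
      change M (e2 i).1 (e2 j).1 = _
      simp only [hM, Matrix.of_apply, if_pos (e2 j).2]
    rw [hMe, hMe, hMe, hMe, e20, e21, sq]
    have hq := Q_symm z T k l
    nth_rw 2 [hq]
    rw [Q_of_mem z hk hk, Q_of_mem z hl hl, Q_of_mem z hk hl, Q_of_mem z hl hk]
  let f : Option ((T.erase k).erase l : Finset V) → {i // ¬ p i} := fun a => match a with
    | none => ⟨none, by simp [hp]⟩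
    | some i => ⟨some ⟨i.1, Finset.mem_of_mem_erase (Finset.mem_of_mem_erase i.2)⟩, by
        have h1 := Finset.ne_of_mem_erase i.2
        have h2 := Finset.ne_of_mem_erase (Finset.mem_of_mem_erase i.2)
        simp [hp, h1, h2]⟩
  have hf : Function.Bijective f := by
    constructor
    · intro a b hab
      rcases a with _ | i <;> rcases b with _ | j
      · rfl
      · simp [f] at hab
      · simp [f] at hab
      · simp only [f, Subtype.mk.injEq, Option.some.injEq] at hab
        exact congrArg some (Subtype.ext hab)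
    · rintro ⟨i, hi⟩
      rcases i with _ | i
      · exact ⟨none, rfl⟩
      · refine ⟨some ⟨i.1, ?_⟩, rfl⟩
        simp only [hp, Option.some.injEq, not_or] at hi
        refine Finset.mem_erase.2 ⟨?_, Finset.mem_erase.2 ⟨?_, i.2⟩⟩
        · exact fun h => hi.2 (Subtype.ext h)
        · exact fun h => hi.1 (Subtype.ext h)
  have d7 : (Matrix.toSquareBlockProp (A * M) fun i => ¬ p i).det =
      (CM z ((T.erase k).erase l)).det := by
    rw [← Matrix.det_submatrix_equiv_self (Equiv.ofBijective f hf)]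
    congr 1
    ext a b
    change (A * M) (f a).1 (f b).1 = _
    rw [hN, if_neg (f b).2, hA]
    rcases a with _ | i <;> rcases b with _ | j
    · rfl
    · rfl
    · rfl
    · change (if (⟨i.1, _⟩ : T) = (⟨j.1, _⟩ : T) then (0 : ℝ) else z s(i.1, j.1)) =
        if i = j then (0 : ℝ) else z s(i.1, j.1)
      simp only [Subtype.mk.injEq, Subtype.ext_iff]
  rw [← d7, ← d6]
  have := d1
  rw [d3, d2, d4, d5, Matrix.det_one, Matrix.det_one, one_mul, mul_one] at this
  exact this

/-- B2: Jacobi's identity. -/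
theorem jacobi {z : Sym2 V → ℝ} {T : Finset V} (hD : (CM z T).det ≠ 0) {k l : V} (hk : k ∈ T)
    (hl : l ∈ T) (hkl : k ≠ l) :
    |(CM z ((T.erase k).erase l)).det| = |(CM z T).det| * |Q z T k k * Q z T l l - Q z T k l ^ 2| := by
  rw [jacobi' hD hk hl hkl, abs_mul]

end Pool.Agent.H30ES
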