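import Pool.Agent.H30ES.Schl

/-!
# Regge's formula for the gradient of the total scalar curvature
-/

set_option autoImplicit false
set_option linter.unusedSectionVars false

namespace Pool.Agent.H30ES

open Pool.Agent.H4ES

variable {V ι : Type} [DecidableEq V] [Fintype ι] [DecidableEq ι]

theorem ed_mem (K : Cplx V ι) (T : ι) (m : Fin 6) : K.ed T m ∈ K.edges :=
  Finset.mem_image.2 ⟨(T, m), Finset.mem_univ _, rfl⟩

theorem totalCurv_eq (K : Cplx V ι) (z : Sym2 V → ℝ) :
    K.totalCurv z = ∑ e ∈ K.edges, Real.sqrt (z e) -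
      (∑ T, ∑ m, Real.sqrt (K.sq z T (ei m) (ej m)) * th (K.sq z T) m) / (2 * Real.pi) := by
  have h1 : ∀ e, K.curv z e * Real.sqrt (z e) = Real.sqrt (z e) -
      ∑ T, ∑ m, (if K.ed T m = e then th (K.sq z T) m / (2 * Real.pi) else 0) *
        Real.sqrt (z e) := by
    intro e
    rw [Cplx.curv, sub_mul, one_mul, Finset.sum_mul]
    congr 1
    exact Finset.sum_congr rfl fun T _ => Finset.sum_mul _ _ _
  rw [Cplx.totalCurv]
  simp only [h1]
  rw [Finset.sum_sub_distrib]
  congr 1
  rw [Finset.sum_comm, Finset.sum_div]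
  refine Finset.sum_congr rfl fun T _ => ?_
  rw [Finset.sum_comm, Finset.sum_div]
  refine Finset.sum_congr rfl fun m _ => ?_
  simp only [ite_mul, zero_mul]
  rw [Finset.sum_ite_eq, if_pos (ed_mem K T m)]
  show th (K.sq z T) m / (2 * Real.pi) * Real.sqrt (z (K.ed T m)) =
    Real.sqrt (z (K.ed T m)) * th (K.sq z T) m / (2 * Real.pi)
  ring

theorem update_deriv (z : Sym2 V → ℝ) (e0 s : Sym2 V) :
    HasDerivAt (fun x => Function.update z e0 x s) (if s = e0 then 1 else 0) (z e0) := by
  by_cases h : s = e0
  · subst h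
    simp only [Function.update_self, if_true]
    exact hasDerivAt_id _
  · simp only [Function.update_of_ne h, if_neg h]
    exact hasDerivAt_const _ _

/-- Regge's formula. -/
theorem regge (K : Cplx V ι) (z : Sym2 V → ℝ)
    (hpos : ∀ T a b, a ≠ b → 0 < K.sq z T a b)
    (har : ∀ T i j k, i ≠ j → i ≠ k → j ≠ k → 0 < ar (K.sq z T) i j k)
    (hG : ∀ T, 0 < gram (K.sq z T)) {e0 : Sym2 V} (he0 : e0 ∈ K.edges) :
    HasDerivAt (fun x => K.totalCurv (Function.update z e0 x))
      (K.curv z e0 / (2 * Real.sqrt (z e0))) (z e0) := by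
  have hz0 : 0 < z e0 := by
    obtain ⟨⟨T, m⟩, -, h⟩ := Finset.mem_image.1 he0
    rw [← h]
    exact hpos T (ei m) (ej m) (distinct m).1
  have hself : Function.update z e0 (z e0) = z := Function.update_eq_self _ _
  have h1 : ∀ T, HasDerivAt (fun x => ∑ m, Real.sqrt (K.sq (Function.update z e0 x) T (ei m)
      (ej m)) * th (K.sq (Function.update z e0 x) T) m)
      (∑ m, (if K.ed T m = e0 then th (K.sq z T) m / (2 * Real.sqrt (z e0)) else 0)) (z e0) := by
    intro T
    have h := schlaefli (q := fun x => K.sq (Function.update z e0 x) T)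
      (q' := fun a b => if s(K.v T a, K.v T b) = e0 then 1 else 0) (x0 := z e0)
      (fun x a b => by
        show Function.update z e0 x s(K.v T a, K.v T b) = Function.update z e0 x s(K.v T b, K.v T a)
        rw [Sym2.eq_swap])
      (fun a b _ => update_deriv z e0 s(K.v T a, K.v T b))
      (by simp only [hself]; exact hpos T) (by simp only [hself]; exact har T)
      (by simp only [hself]; exact hG T)
    simp only [hself] at h
    convert! h using 1
    refine Finset.sum_congr rfl fun m _ => ?_
    by_cases hm : K.ed T m = e0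
    · have hm' : s(K.v T (ei m), K.v T (ej m)) = e0 := hm
      have hz : K.sq z T (ei m) (ej m) = z e0 := by
        show z s(K.v T (ei m), K.v T (ej m)) = z e0
        rw [hm']
      rw [if_pos hm, if_pos hm', hz, one_mul]
    · have hm' : ¬ s(K.v T (ei m), K.v T (ej m)) = e0 := hm
      rw [if_neg hm, if_neg hm', zero_mul, zero_div]
  have h2 : HasDerivAt (fun x => ∑ e ∈ K.edges, Real.sqrt (Function.update z e0 x e))
      (∑ e ∈ K.edges, (if e = e0 then 1 / (2 * Real.sqrt (z e0)) else 0)) (z e0) := by
    apply HasDerivAt.fun_sum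
    intro e _
    by_cases he : e = e0
    · subst he
      simp only [Function.update_self, if_true]
      exact Real.hasDerivAt_sqrt hz0.ne'
    · simp only [Function.update_of_ne he, if_neg he]
      exact hasDerivAt_const _ _
  have h3 := h2.sub ((HasDerivAt.fun_sum (u := Finset.univ) fun T _ => h1 T).div_const
    (2 * Real.pi))
  have e1 : (fun x => K.totalCurv (Function.update z e0 x)) = fun x =>
      ∑ e ∈ K.edges, Real.sqrt (Function.update z e0 x e) -
      (∑ T, ∑ m, Real.sqrt (K.sq (Function.update z e0 x) T (ei m) (ej m)) *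
        th (K.sq (Function.update z e0 x) T) m) / (2 * Real.pi) :=
    funext fun x => totalCurv_eq K _
  rw [e1]
  convert! h3 using 1
  rw [Finset.sum_ite_eq', if_pos he0, Cplx.curv, sub_div, Finset.sum_div, Finset.sum_div]
  congr 1
  refine Finset.sum_congr rfl fun T _ => ?_
  rw [Finset.sum_div, Finset.sum_div]
  refine Finset.sum_congr rfl fun m _ => ?_
  split_ifs
  · ring
  · simp

end Pool.Agent.H30ES
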