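import Pool.Agent.H4ES.Defs
import Pool.Agent.H30ES.Acos

/-!
# Schläfli's identity for one tetrahedron
-/

set_option autoImplicit false

namespace Pool.Agent.H30ES

open Pool.Agent.H4ES

/-- `576` times the squared volume. -/
noncomputable def gram (q : Fin 4 → Fin 4 → ℝ) : ℝ :=
  4 * (q 0 1 * q 2 3 * (q 0 2 + q 0 3 + q 1 2 + q 1 3 - q 0 1 - q 2 3)
    + q 0 2 * q 1 3 * (q 0 1 + q 0 3 + q 1 2 + q 2 3 - q 0 2 - q 1 3)
    + q 0 3 * q 1 2 * (q 0 1 + q 0 2 + q 1 3 + q 2 3 - q 0 3 - q 1 2)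
    - q 0 1 * q 0 2 * q 1 2 - q 0 1 * q 0 3 * q 1 3 - q 0 2 * q 0 3 * q 2 3
    - q 1 2 * q 1 3 * q 2 3)

noncomputable def arD (q q' : Fin 4 → Fin 4 → ℝ) (i j k : Fin 4) : ℝ :=
  2 * ((q' i j * q i k + q i j * q' i k) + (q' i j * q j k + q i j * q' j k)
    + (q' i k * q j k + q i k * q' j k))
    - 2 * q i j * q' i j - 2 * q i k * q' i k - 2 * q j k * q' j k

noncomputable def nuD (q q' : Fin 4 → Fin 4 → ℝ) (i j k l : Fin 4) : ℝ :=
  (q' i j * (q i k + q i l + q j k + q j l - 2 * q k l - q i j)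
    + q i j * (q' i k + q' i l + q' j k + q' j l - 2 * q' k l - q' i j))
    - ((q' i k - q' j k) * (q i l - q j l) + (q i k - q j k) * (q' i l - q' j l))

theorem distinct : ∀ m : Fin 6, ei m ≠ ej m ∧ ei m ≠ ek m ∧ ei m ≠ el m ∧ ej m ≠ ek m ∧
    ej m ≠ el m ∧ ek m ≠ el m := by decide

section

variable {q : ℝ → Fin 4 → Fin 4 → ℝ} {q' : Fin 4 → Fin 4 → ℝ} {x0 : ℝ}

theorem ar_deriv (hq' : ∀ a b, a ≠ b → HasDerivAt (fun x => q x a b) (q' a b) x0)
    {i j k : Fin 4} (hij : i ≠ j) (hik : i ≠ k) (hjk : j ≠ k) :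
    HasDerivAt (fun x => ar (q x) i j k) (arD (q x0) q' i j k) x0 := by
  have h1 := hq' i j hij
  have h2 := hq' i k hik
  have h3 := hq' j k hjk
  have h := ((((((h1.mul h2).add (h1.mul h3)).add (h2.mul h3)).const_mul 2).sub
    (h1.pow 2)).sub (h2.pow 2)).sub (h3.pow 2)
  convert! h using 1
  simp only [arD]
  norm_num

theorem nu_deriv (hq' : ∀ a b, a ≠ b → HasDerivAt (fun x => q x a b) (q' a b) x0)
    {i j k l : Fin 4} (hij : i ≠ j) (hik : i ≠ k) (hil : i ≠ l) (hjk : j ≠ k) (hjl : j ≠ l)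
    (hkl : k ≠ l) :
    HasDerivAt (fun x => nu (q x) i j k l) (nuD (q x0) q' i j k l) x0 := by
  have h1 := hq' i j hij
  have h2 := hq' i k hik
  have h3 := hq' i l hil
  have h4 := hq' j k hjk
  have h5 := hq' j l hjl
  have h6 := hq' k l hkl
  have h := (h1.mul (((((h2.add h3).add h4).add h5).sub (h6.const_mul 2)).sub h1)).sub
    ((h2.sub h4).mul (h3.sub h5))
  exact h

theorem schlaefli (hs : ∀ x a b, q x a b = q x b a)
    (hq' : ∀ a b, a ≠ b → HasDerivAt (fun x => q x a b) (q' a b) x0)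
    (hpos : ∀ a b, a ≠ b → 0 < q x0 a b)
    (har : ∀ i j k, i ≠ j → i ≠ k → j ≠ k → 0 < ar (q x0) i j k)
    (hG : 0 < gram (q x0)) :
    HasDerivAt (fun x => ∑ m, Real.sqrt (q x (ei m) (ej m)) * th (q x) m)
      (∑ m, q' (ei m) (ej m) * th (q x0) m / (2 * Real.sqrt (q x0 (ei m) (ej m)))) x0 := by
  have hs' : ∀ a b, q' a b = q' b a ∨ a = b := by
    intro a b
    by_cases hab : a = b
    · exact Or.inr hab
    · refine Or.inl ((hq' a b hab).unique ?_)
      have h := hq' b a (Ne.symm hab)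
      have e : (fun x => q x a b) = fun x => q x b a := funext fun x => hs x a b
      rw [e]
      exact h
  have s10 : q' 1 0 = q' 0 1 := (hs' 1 0).resolve_right (by decide)
  have s20 : q' 2 0 = q' 0 2 := (hs' 2 0).resolve_right (by decide)
  have s30 : q' 3 0 = q' 0 3 := (hs' 3 0).resolve_right (by decide)
  have s21 : q' 2 1 = q' 1 2 := (hs' 2 1).resolve_right (by decide)
  have s31 : q' 3 1 = q' 1 3 := (hs' 3 1).resolve_right (by decide)
  have s32 : q' 3 2 = q' 2 3 := (hs' 3 2).resolve_right (by decide)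
  have t10 := hs x0 1 0
  have t20 := hs x0 2 0
  have t30 := hs x0 3 0
  have t21 := hs x0 2 1
  have t31 := hs x0 3 1
  have t32 := hs x0 3 2
  have hgr : ∀ m, ar (q x0) (ei m) (ej m) (ek m) * ar (q x0) (ei m) (ej m) (el m) -
      nu (q x0) (ei m) (ej m) (ek m) (el m) ^ 2 = q x0 (ei m) (ej m) * gram (q x0) := by
    intro m
    fin_cases m <;> simp only [ei, ej, ek, el, ar, nu, gram, Fin.zero_eta, Fin.mk_one,
      Fin.reduceFinMk, Matrix.cons_val, Matrix.cons_val_zero, Matrix.cons_val_one, t10, t20, t30,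
      t21, t31, t32] <;> ring
  let T : Fin 6 → ℝ := fun m => -(nuD (q x0) q' (ei m) (ej m) (ek m) (el m) -
    nu (q x0) (ei m) (ej m) (ek m) (el m) *
      (arD (q x0) q' (ei m) (ej m) (ek m) / (2 * ar (q x0) (ei m) (ej m) (ek m)) +
        arD (q x0) q' (ei m) (ej m) (el m) / (2 * ar (q x0) (ei m) (ej m) (el m)))) /
    (Real.sqrt (q x0 (ei m) (ej m)) * Real.sqrt (gram (q x0)))
  have hth : ∀ m, HasDerivAt (fun x => th (q x) m) (T m) x0 := by
    intro m
    obtain ⟨d1, d2, d3, d4, d5, d6⟩ := distinct m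
    exact acos (nu_deriv hq' d1 d2 d3 d4 d5 d6) (ar_deriv hq' d1 d2 d4) (ar_deriv hq' d1 d3 d5)
      (har _ _ _ d1 d2 d4) (har _ _ _ d1 d3 d5) (hpos _ _ d1) hG (hgr m)
  have hsum : HasDerivAt (fun x => ∑ m, Real.sqrt (q x (ei m) (ej m)) * th (q x) m)
      (∑ m, (q' (ei m) (ej m) / (2 * Real.sqrt (q x0 (ei m) (ej m))) * th (q x0) m +
        Real.sqrt (q x0 (ei m) (ej m)) * T m)) x0 := by
    apply HasDerivAt.fun_sum
    intro m _
    obtain ⟨d1, -⟩ := distinct m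
    exact ((hq' _ _ d1).sqrt (hpos _ _ d1).ne').mul (hth m)
  have hz : ∀ m, Real.sqrt (q x0 (ei m) (ej m)) * T m =
      -(nuD (q x0) q' (ei m) (ej m) (ek m) (el m) -
    nu (q x0) (ei m) (ej m) (ek m) (el m) *
      (arD (q x0) q' (ei m) (ej m) (ek m) / (2 * ar (q x0) (ei m) (ej m) (ek m)) +
        arD (q x0) q' (ei m) (ej m) (el m) / (2 * ar (q x0) (ei m) (ej m) (el m)))) /
      Real.sqrt (gram (q x0)) := by
    intro m
    obtain ⟨d1, -⟩ := distinct m
    have h1 : Real.sqrt (q x0 (ei m) (ej m)) ≠ 0 := (Real.sqrt_pos.2 (hpos _ _ d1)).ne'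
    have h2 : Real.sqrt (gram (q x0)) ≠ 0 := (Real.sqrt_pos.2 hG).ne'
    show Real.sqrt (q x0 (ei m) (ej m)) * (_ / (Real.sqrt (q x0 (ei m) (ej m)) *
      Real.sqrt (gram (q x0)))) = _
    rw [← mul_div_assoc, mul_div_mul_left _ _ h1]
  have hzero : ∑ m, Real.sqrt (q x0 (ei m) (ej m)) * T m = 0 := by
    simp only [hz]
    rw [← Finset.sum_div, Finset.sum_neg_distrib]
    have hS : ∑ m : Fin 6, (nuD (q x0) q' (ei m) (ej m) (ek m) (el m) -
        nu (q x0) (ei m) (ej m) (ek m) (el m) *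
      (arD (q x0) q' (ei m) (ej m) (ek m) / (2 * ar (q x0) (ei m) (ej m) (ek m)) +
        arD (q x0) q' (ei m) (ej m) (el m) / (2 * ar (q x0) (ei m) (ej m) (el m)))) = 0 := by
      obtain ⟨D3, hD3⟩ : ∃ D, D = ar (q x0) 0 1 2 := ⟨_, rfl⟩
      obtain ⟨D2, hD2⟩ : ∃ D, D = ar (q x0) 0 1 3 := ⟨_, rfl⟩
      obtain ⟨D1, hD1⟩ : ∃ D, D = ar (q x0) 0 2 3 := ⟨_, rfl⟩
      obtain ⟨D0, hD0⟩ : ∃ D, D = ar (q x0) 1 2 3 := ⟨_, rfl⟩
      obtain ⟨D3', hD3'⟩ : ∃ D, D = arD (q x0) q' 0 1 2 := ⟨_, rfl⟩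
      obtain ⟨D2', hD2'⟩ : ∃ D, D = arD (q x0) q' 0 1 3 := ⟨_, rfl⟩
      obtain ⟨D1', hD1'⟩ : ∃ D, D = arD (q x0) q' 0 2 3 := ⟨_, rfl⟩
      obtain ⟨D0', hD0'⟩ : ∃ D, D = arD (q x0) q' 1 2 3 := ⟨_, rfl⟩
      have a021 : ar (q x0) 0 2 1 = D3 := by rw [hD3]; simp only [ar, t21]; ring
      have a120 : ar (q x0) 1 2 0 = D3 := by rw [hD3]; simp only [ar, t10, t20]; ring
      have a031 : ar (q x0) 0 3 1 = D2 := by rw [hD2]; simp only [ar, t31]; ring
      have a130 : ar (q x0) 1 3 0 = D2 := by rw [hD2]; simp only [ar, t10, t30]; ring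
      have a032 : ar (q x0) 0 3 2 = D1 := by rw [hD1]; simp only [ar, t32]; ring
      have a230 : ar (q x0) 2 3 0 = D1 := by rw [hD1]; simp only [ar, t20, t30]; ring
      have a132 : ar (q x0) 1 3 2 = D0 := by rw [hD0]; simp only [ar, t32]; ring
      have a231 : ar (q x0) 2 3 1 = D0 := by rw [hD0]; simp only [ar, t21, t31]; ring
      have b021 : arD (q x0) q' 0 2 1 = D3' := by rw [hD3']; simp only [arD, t21, s21]; ring
      have b120 : arD (q x0) q' 1 2 0 = D3' := by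
        rw [hD3']; simp only [arD, t10, t20, s10, s20]; ring
      have b031 : arD (q x0) q' 0 3 1 = D2' := by rw [hD2']; simp only [arD, t31, s31]; ring
      have b130 : arD (q x0) q' 1 3 0 = D2' := by
        rw [hD2']; simp only [arD, t10, t30, s10, s30]; ring
      have b032 : arD (q x0) q' 0 3 2 = D1' := by rw [hD1']; simp only [arD, t32, s32]; ring
      have b230 : arD (q x0) q' 2 3 0 = D1' := by
        rw [hD1']; simp only [arD, t20, t30, s20, s30]; ring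
      have b132 : arD (q x0) q' 1 3 2 = D0' := by rw [hD0']; simp only [arD, t32, s32]; ring
      have b231 : arD (q x0) q' 2 3 1 = D0' := by
        rw [hD0']; simp only [arD, t21, t31, s21, s31]; ring
      have p3 : D3 ≠ 0 := by rw [hD3]; exact (har 0 1 2 (by decide) (by decide) (by decide)).ne'
      have p2 : D2 ≠ 0 := by rw [hD2]; exact (har 0 1 3 (by decide) (by decide) (by decide)).ne'
      have p1 : D1 ≠ 0 := by rw [hD1]; exact (har 0 2 3 (by decide) (by decide) (by decide)).ne'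
      have p0 : D0 ≠ 0 := by rw [hD0]; exact (har 1 2 3 (by decide) (by decide) (by decide)).ne'
      have f3 : nu (q x0) 0 1 2 3 + nu (q x0) 0 2 1 3 + nu (q x0) 1 2 0 3 = D3 := by
        rw [hD3]; simp only [ar, nu, t10, t20, t30, t21, t31, t32]; ring
      have f2 : nu (q x0) 0 1 2 3 + nu (q x0) 0 3 1 2 + nu (q x0) 1 3 0 2 = D2 := by
        rw [hD2]; simp only [ar, nu, t10, t20, t30, t21, t31, t32]; ring
      have f1 : nu (q x0) 0 2 1 3 + nu (q x0) 0 3 1 2 + nu (q x0) 2 3 0 1 = D1 := by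
        rw [hD1]; simp only [ar, nu, t10, t20, t30, t21, t31, t32]; ring
      have f0 : nu (q x0) 1 2 0 3 + nu (q x0) 1 3 0 2 + nu (q x0) 2 3 0 1 = D0 := by
        rw [hD0]; simp only [ar, nu, t10, t20, t30, t21, t31, t32]; ring
      have fd : nuD (q x0) q' 0 1 2 3 + nuD (q x0) q' 0 2 1 3 + nuD (q x0) q' 0 3 1 2 +
          nuD (q x0) q' 1 2 0 3 + nuD (q x0) q' 1 3 0 2 + nuD (q x0) q' 2 3 0 1 =
          (D0' + D1' + D2' + D3') / 2 := by
        rw [hD0', hD1', hD2', hD3']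
        simp only [arD, nuD, t10, t20, t30, t21, t31, t32, s10, s20, s30, s21, s31, s32]; ring
      rw [Fin.sum_univ_six]
      simp only [ei, ej, ek, el, Matrix.cons_val, Matrix.cons_val_zero, Matrix.cons_val_one]
      rw [← hD3, ← hD2, ← hD3', ← hD2', ← hD1, ← hD1', ← hD0, ← hD0', a021, a120, a031, a130,
        a032, a230, a132, a231, b021, b120, b031, b130, b032, b230, b132, b231]
      obtain ⟨e3, he3⟩ : ∃ e, e = D3' / (2 * D3) := ⟨_, rfl⟩
      obtain ⟨e2, he2⟩ : ∃ e, e = D2' / (2 * D2) := ⟨_, rfl⟩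
      obtain ⟨e1, he1⟩ : ∃ e, e = D1' / (2 * D1) := ⟨_, rfl⟩
      obtain ⟨e0, he0⟩ : ∃ e, e = D0' / (2 * D0) := ⟨_, rfl⟩
      have g3 : D3' = 2 * D3 * e3 := by rw [he3]; field_simp
      have g2 : D2' = 2 * D2 * e2 := by rw [he2]; field_simp
      have g1 : D1' = 2 * D1 * e1 := by rw [he1]; field_simp
      have g0 : D0' = 2 * D0 * e0 := by rw [he0]; field_simp
      rw [← he3, ← he2, ← he1, ← he0]
      linear_combination fd - e3 * f3 - e2 * f2 - e1 * f1 - e0 * f0 + (1 / 2) * g0 +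
        (1 / 2) * g1 + (1 / 2) * g2 + (1 / 2) * g3
    rw [hS]
    simp
  have hfin : ∑ m, (q' (ei m) (ej m) / (2 * Real.sqrt (q x0 (ei m) (ej m))) * th (q x0) m +
      Real.sqrt (q x0 (ei m) (ej m)) * T m) =
      ∑ m, q' (ei m) (ej m) * th (q x0) m / (2 * Real.sqrt (q x0 (ei m) (ej m))) := by
    rw [Finset.sum_add_distrib, hzero, add_zero]
    refine Finset.sum_congr rfl fun m _ => ?_
    ring
  rw [← hfin]
  exact hsum

end

end Pool.Agent.H30ES
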